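import Pool.Agent.W5h84.Seg.Final

/-!
# Finite outer automorphism group does not force equal characteristic and normal growth types

We construct a finitely generated group `Γ` with `Out Γ` finite for which no function is a growth
type of both the number of characteristic and the number of normal subgroups of index at most `n`.

Plan of the construction.  Let `V_q` be the sum-zero vectors of `(ZMod q)^5`, and
`G_q = (V_q + V_q) : A5`, acting affinely on `V_q + V_q`.  For a sequence of primes `q_n` with
`q_n > 2^n` there is a finitely generated perfect group `A` of branch type with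
`A = A_1 wr G_{q_0}`, `A_1 = A_2 wr G_{q_1}`, ...; its finite-index normal subgroups are given by
a level `j` and a normal subgroup of `G_{q_j}`.  The swap of the two copies of `V_q` induces an
involution of `A`; at most five normal subgroups per level are invariant under it, but at level
`j` there are at least `q_j` normal subgroups.  Let `Q = A × A`, with generating set `P` closed
under the involution.  Let `Γ₁ = A5 wr Q` (restricted, regular) and `Γ = A5 wr Γ₁` (restricted,
over the `Γ₁`-set `Q × A5^P`).  Then `Γ` has the same finite-index normal subgroups as `Q`, the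
involution lifts to `Γ`, and `Out Γ` is finite, since an automorphism of `Γ` permutes the simple
factors and has to respect the generating set `P`.
-/

namespace Pool.Agent.Results.MP_216434_al.OutFiniteTypesDiffer

/-- The number of normal subgroups of `Γ` of (finite) index at most `n`. -/
noncomputable def normalCount (Γ : Type) [Group Γ] (n : ℕ) : ℕ :=
  Nat.card {N : Subgroup Γ // N.Normal ∧ N.index ≠ 0 ∧ N.index ≤ n}

/-- The number of characteristic subgroups of `Γ` of (finite) index at most `n`. -/
noncomputable def charCount (Γ : Type) [Group Γ] (n : ℕ) : ℕ :=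
  Nat.card {N : Subgroup Γ // N.Characteristic ∧ N.index ≠ 0 ∧ N.index ≤ n}

/-- `g` has growth type `f`: there are `a, b > 0` with `g n ≤ (f n)^a` for every `n ≥ 1` and
`g n ≥ (f n)^b` for infinitely many `n`. -/
def HasGrowthType (g : ℕ → ℕ) (f : ℕ → ℝ) : Prop :=
  ∃ a b : ℝ, 0 < a ∧ 0 < b ∧ (∀ n : ℕ, 1 ≤ n → (g n : ℝ) ≤ f n ^ a) ∧
    {n : ℕ | f n ^ b ≤ (g n : ℝ)}.Infinite

/-- There is a finitely generated group with finite outer automorphism group such that no
(nonnegative) function is a growth type of both its characteristic and its normal subgroup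
growth. -/
theorem result : ∃ (Γ : Type) (_ : Group Γ), Group.FG Γ ∧
    Finite (MulAut Γ ⧸ (MulAut.conj (G := Γ)).range) ∧
    ¬ ∃ f : ℕ → ℝ, (∀ n, 0 ≤ f n) ∧ HasGrowthType (charCount Γ) f ∧
      HasGrowthType (normalCount Γ) f := by
  obtain ⟨Γ, hΓ, hfg, hout, hC⟩ := Pool.Agent.W5h84.Seg.main
  refine ⟨Γ, hΓ, hfg, hout, ?_⟩
  rintro ⟨f, hf, ⟨-, b, -, hb, -, hinf⟩, ⟨a, -, ha, -, hle, -⟩⟩
  have hC' : ∀ C : ℕ, ∃ x0 : ℕ, ∀ x ≥ x0, (charCount Γ x) ^ C < normalCount Γ x := hC
  obtain ⟨C, hCa⟩ := exists_nat_ge (a / b)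
  have hCb : a ≤ b * C := by
    rw [div_le_iff₀ hb] at hCa
    linarith [mul_comm b (C : ℝ)]
  obtain ⟨x0, hx0⟩ := hC' C
  obtain ⟨x1, hx1⟩ := hC' 0
  obtain ⟨n, hn, hnx⟩ := hinf.exists_gt (max 1 (max x0 x1))
  have h1 : 1 ≤ n := le_trans (le_max_left _ _) hnx.le
  have h2 : x0 ≤ n := le_trans (le_trans (le_max_left _ _) (le_max_right _ _)) hnx.le
  have h3 : x1 ≤ n := le_trans (le_trans (le_max_right _ _) (le_max_right _ _)) hnx.le
  have h4 := hx0 n h2
  have h5 := hx1 n h3
  have h6 := hle n h1
  rw [pow_zero] at h5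
  have h5' : (1 : ℝ) < normalCount Γ n := by exact_mod_cast h5
  rcases le_or_gt 1 (f n) with h7 | h7
  · have h8 : f n ^ a ≤ ((charCount Γ n : ℕ) : ℝ) ^ C := by
      calc f n ^ a ≤ f n ^ (b * C) := Real.rpow_le_rpow_of_exponent_le h7 hCb
        _ = (f n ^ b) ^ C := by rw [Real.rpow_mul (hf n), Real.rpow_natCast]
        _ ≤ ((charCount Γ n : ℕ) : ℝ) ^ C :=
          pow_le_pow_left₀ (Real.rpow_nonneg (hf n) _) hn C
    have h9 : (((charCount Γ n) ^ C : ℕ) : ℝ) < normalCount Γ n := by exact_mod_cast h4
    push_cast at h9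
    linarith
  · have h8 : f n ^ a ≤ 1 := Real.rpow_le_one (hf n) h7.le ha.le
    linarith

end Pool.Agent.Results.MP_216434_al.OutFiniteTypesDiffer
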